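import Pool.Agent.H361R2.PP.Iface
import Pool.Agent.Helper923.PNT

/-!
Task PP-PNT of project PP (helper361): the number of primes in `[X, 2X)`.
-/

set_option autoImplicit false

open Finset Filter Topology

namespace Pool.Agent.H325R2

open Pool.Agent.H361R2.PP

lemma Pr_eq (X : ℕ) (hX : 2 ≤ X) :
    Pr X = (Nat.primeCounting (2 * X) : ℝ) - Nat.primeCounting X + (if X.Prime then 1 else 0) := by
  unfold Pr
  have h1 : (Nat.primeCounting (2 * X)) = ((range (2 * X + 1)).filter Nat.Prime).card := by
    rw [Nat.primeCounting, Nat.primeCounting', Nat.count_eq_card_filter_range]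
  have h2 : (Nat.primeCounting X) = ((range (X + 1)).filter Nat.Prime).card := by
    rw [Nat.primeCounting, Nat.primeCounting', Nat.count_eq_card_filter_range]
  have h3 : (range (2 * X + 1)).filter Nat.Prime = (range (2 * X)).filter Nat.Prime := by
    rw [Finset.range_add_one, Finset.filter_insert, if_neg]
    intro h
    have := (Nat.prime_mul_iff.1 h)
    omega
  have h4 : (range (2 * X)).filter Nat.Prime =
      (range X).filter Nat.Prime ∪ (Ico X (2 * X)).filter Nat.Prime := by
    ext p
    simp only [mem_filter, mem_range, mem_union, mem_Ico]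
    constructor
    · rintro ⟨h, hp⟩
      by_cases hc : p < X
      · exact Or.inl ⟨hc, hp⟩
      · exact Or.inr ⟨⟨by omega, h⟩, hp⟩
    · rintro (⟨h, hp⟩ | ⟨⟨_, h⟩, hp⟩)
      · exact ⟨by omega, hp⟩
      · exact ⟨h, hp⟩
  have h5 : Disjoint ((range X).filter Nat.Prime) ((Ico X (2 * X)).filter Nat.Prime) := by
    rw [Finset.disjoint_left]
    intro a ha hb
    simp only [mem_filter, mem_range, mem_Ico] at ha hb
    omega
  have h6 : (((range (X + 1)).filter Nat.Prime).card : ℝ) =
      ((range X).filter Nat.Prime).card + (if X.Prime then 1 else 0) := by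
    rw [Finset.range_add_one, Finset.filter_insert]
    split_ifs with h
    · rw [Finset.card_insert_of_notMem (by simp)]
      push_cast
      ring
    · simp
  rw [h1, h2, h3, h4, Finset.card_union_of_disjoint h5, h6]
  push_cast
  ring

theorem pnt : PntX := by
  intro s hs
  have hpi := Pool.Agent.Helper923.PNT.pi_tendsto
  have t1 : Tendsto (fun X : ℕ => (Nat.primeCounting X : ℝ) * Real.log X / X) atTop (𝓝 1) := by
    have := hpi.comp tendsto_natCast_atTop_atTop
    refine this.congr fun X => ?_
    simp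
  have hX2 : Tendsto (fun X : ℕ => (2 : ℝ) * X) atTop atTop :=
    tendsto_natCast_atTop_atTop.const_mul_atTop (by norm_num)
  have t2 : Tendsto (fun X : ℕ => (Nat.primeCounting (2 * X) : ℝ) * Real.log (2 * X) / (2 * X))
      atTop (𝓝 1) := by
    have := hpi.comp hX2
    refine this.congr fun X => ?_
    have h : ⌊(2 : ℝ) * X⌋₊ = 2 * X := by
      have : (2 : ℝ) * X = ((2 * X : ℕ) : ℝ) := by push_cast; ring
      rw [this, Nat.floor_natCast]
    simp only [Function.comp_apply, h]
  have t3 : Tendsto (fun X : ℕ => (Real.log (2 * X))⁻¹) atTop (𝓝 0) :=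
    tendsto_inv_atTop_zero.comp (Real.tendsto_log_atTop.comp hX2)
  have t4 : Tendsto (fun X : ℕ => Real.log X / X) atTop (𝓝 0) := by
    have h := (Real.isLittleO_log_id_atTop).tendsto_div_nhds_zero
    have := h.comp tendsto_natCast_atTop_atTop
    refine this.congr fun X => ?_
    simp
  have t5 : Tendsto (fun X : ℕ => (if X.Prime then (1 : ℝ) else 0) * (Real.log X / X))
      atTop (𝓝 0) := by
    refine squeeze_zero_norm (a := fun X : ℕ => ‖Real.log X / X‖) (fun X => ?_) ?_
    · rw [norm_mul]
      apply mul_le_of_le_one_left (norm_nonneg _)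
      split_ifs <;> simp
    · simpa using t4.norm
  have t6 : Tendsto (fun X : ℕ =>
      2 * ((Nat.primeCounting (2 * X) : ℝ) * Real.log (2 * X) / (2 * X)) -
      2 * Real.log 2 * (((Nat.primeCounting (2 * X) : ℝ) * Real.log (2 * X) / (2 * X)) *
        (Real.log (2 * X))⁻¹) -
      (Nat.primeCounting X : ℝ) * Real.log X / X +
      (if X.Prime then (1 : ℝ) else 0) * (Real.log X / X)) atTop
      (𝓝 (2 * 1 - 2 * Real.log 2 * (1 * 0) - 1 + 0)) :=
    (((t2.const_mul 2).sub ((t2.mul t3).const_mul (2 * Real.log 2))).sub t1).add t5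
  have t7 : (2 * 1 - 2 * Real.log 2 * (1 * 0) - 1 + 0 : ℝ) = 1 := by ring
  rw [t7] at t6
  have h8 := (Metric.tendsto_atTop.1 t6) s hs
  obtain ⟨X₀, hX₀⟩ := h8
  refine ⟨max X₀ 2, fun X hX => ?_⟩
  have hXX : X₀ ≤ X := le_trans (le_max_left _ _) hX
  have hX2' : 2 ≤ X := le_trans (le_max_right _ _) hX
  have h9 := hX₀ X hXX
  rw [Real.dist_eq] at h9
  have hXr : (2 : ℝ) ≤ X := by exact_mod_cast hX2'
  have hXpos : (0 : ℝ) < X := by linarith
  have hl : Real.log (2 * X) = Real.log 2 + Real.log X :=
    Real.log_mul (by norm_num) (by positivity)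
  have hl0 : Real.log (2 * X) ≠ 0 := (Real.log_pos (by linarith)).ne'
  have h10 : 2 * ((Nat.primeCounting (2 * X) : ℝ) * Real.log (2 * X) / (2 * X)) -
      2 * Real.log 2 * (((Nat.primeCounting (2 * X) : ℝ) * Real.log (2 * X) / (2 * X)) *
        (Real.log (2 * X))⁻¹) -
      (Nat.primeCounting X : ℝ) * Real.log X / X +
      (if X.Prime then (1 : ℝ) else 0) * (Real.log X / X) = Pr X * Real.log X / X := by
    rw [Pr_eq X hX2']
    have e1 : 2 * Real.log 2 * (((Nat.primeCounting (2 * X) : ℝ) * Real.log (2 * X) / (2 * X)) *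
        (Real.log (2 * X))⁻¹) = Real.log 2 * (Nat.primeCounting (2 * X) : ℝ) / X := by
      field_simp
    have e2 : 2 * ((Nat.primeCounting (2 * X) : ℝ) * Real.log (2 * X) / (2 * X)) =
        (Nat.primeCounting (2 * X) : ℝ) * (Real.log 2 + Real.log X) / X := by
      rw [hl]
      field_simp
    rw [e1, e2]
    field_simp
    ring
  rw [h10] at h9
  have h11 : |Pr X * Real.log X - X| = |Pr X * Real.log X / X - 1| * X := by
    rw [← abs_of_pos hXpos, ← abs_mul, abs_of_pos hXpos]
    congr 1
    field_simp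
  rw [h11]
  exact mul_le_mul_of_nonneg_right h9.le hXpos.le

end Pool.Agent.H325R2
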