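import Pool.Agent.H361R2.PP.Iface

/-!
Task PP-WTX of project PP (helper361): the size of the modulus and of the parameter `JJ`.
-/

set_option autoImplicit false

open Finset Filter Topology

namespace Pool.Agent.H325R2

open Pool.Agent.H361R2.PP

lemma wtx1 (X : ℕ) (hX : 16 ≤ X) : (Wm X : ℝ) ≤ Real.log X ^ (7 / 20 : ℝ) := by
  have hXr : (16 : ℝ) ≤ X := by exact_mod_cast hX
  have hl2 := Real.log_two_gt_d9
  have hl2' := Real.log_two_lt_d9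
  have hlog : 1 ≤ Real.log X := by
    have h1 : Real.log 16 ≤ Real.log X := Real.log_le_log (by norm_num) hXr
    have h2 : Real.log 16 = 4 * Real.log 2 := by
      rw [show (16 : ℝ) = 2 ^ 4 by norm_num, Real.log_pow]
      norm_num
    linarith
  have hll : 0 ≤ Real.log (Real.log X) := Real.log_nonneg hlog
  have h0 : (Wm X : ℝ) ≤ (4 : ℝ) ^ (HH X) := by
    unfold Wm
    exact_mod_cast primorial_le_four_pow (HH X)
  have h1 : (HH X : ℝ) ≤ Real.log (Real.log X) / 4 := by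
    unfold HH
    exact Nat.floor_le (by positivity)
  have h2 : (4 : ℝ) ^ (HH X) ≤ (4 : ℝ) ^ (Real.log (Real.log X) / 4) := by
    rw [← Real.rpow_natCast]
    exact Real.rpow_le_rpow_of_exponent_le (by norm_num) h1
  have h4 : Real.log 4 = 2 * Real.log 2 := by
    rw [show (4 : ℝ) = 2 ^ 2 by norm_num, Real.log_pow]
    norm_num
  have h3 : (4 : ℝ) ^ (Real.log (Real.log X) / 4) ≤ Real.log X ^ (7 / 20 : ℝ) := by
    rw [Real.rpow_def_of_pos (by norm_num), Real.rpow_def_of_pos (by linarith), h4]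
    apply Real.exp_le_exp.2
    nlinarith
  linarith

lemma wtx2 (δ : ℝ) (hδ : 0 < δ) : ∃ X₀ : ℕ, ∀ X : ℕ, X₀ ≤ X →
    (2 : ℝ) ^ 2 ^ JJ δ X ≤ (X : ℝ) ^ δ ∧ (X : ℝ) ^ (δ / 2) ≤ (2 : ℝ) ^ 2 ^ JJ δ X ∧
    HH X < 2 ^ 2 ^ JJ δ X := by
  have e1 : ∀ᶠ x : ℝ in atTop, 2 ≤ x ^ δ := (tendsto_rpow_atTop hδ).eventually_ge_atTop 2
  have e2 : ∀ᶠ x : ℝ in atTop, Real.log x ≤ x ^ (δ / 2) := by
    have h := (isLittleO_log_rpow_atTop (r := δ / 2) (by linarith)).bound (c := 1) (by norm_num)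
    filter_upwards [h, eventually_ge_atTop (1 : ℝ)] with x hx h1
    rw [one_mul, Real.norm_of_nonneg (Real.log_nonneg h1),
      Real.norm_of_nonneg (by positivity)] at hx
    exact hx
  have e3 : ∀ᶠ x : ℝ in atTop, 1 ≤ Real.log x := Real.tendsto_log_atTop.eventually_ge_atTop 1
  obtain ⟨x₀, hx₀⟩ := eventually_atTop.1 (e1.and (e2.and (e3.and (eventually_ge_atTop (1 : ℝ)))))
  refine ⟨⌈x₀⌉₊, fun X hX => ?_⟩
  obtain ⟨h1, h2, h3, h4⟩ := hx₀ X (le_trans (Nat.le_ceil _) (by exact_mod_cast hX))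
  set N := ⌊(X : ℝ) ^ δ⌋₊ with hN
  have hN2 : 2 ≤ N := Nat.le_floor (by exact_mod_cast h1)
  have hL1 : 1 ≤ Nat.log 2 N := Nat.log_pos (by norm_num) hN2
  have hj : JJ δ X = Nat.log 2 (Nat.log 2 N) := rfl
  set j := JJ δ X with hjd
  have a1 : 2 ^ j ≤ Nat.log 2 N := by
    rw [hj]
    exact Nat.pow_log_le_self 2 (by omega)
  have a2 : 2 ^ 2 ^ j ≤ N :=
    (Nat.pow_le_pow_right (by norm_num) a1).trans (Nat.pow_log_le_self 2 (by omega))
  have a3 : Nat.log 2 N + 1 ≤ 2 ^ (j + 1) := by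
    rw [hj]
    exact Nat.lt_pow_succ_log_self (by norm_num) _
  have a4 : N + 1 ≤ (2 ^ 2 ^ j) ^ 2 := by
    have b1 : N < 2 ^ (Nat.log 2 N + 1) := Nat.lt_pow_succ_log_self (by norm_num) _
    have b2 : 2 ^ (Nat.log 2 N + 1) ≤ 2 ^ (2 ^ (j + 1)) := Nat.pow_le_pow_right (by norm_num) a3
    have b3 : 2 ^ (2 ^ (j + 1)) = (2 ^ 2 ^ j) ^ 2 := by
      rw [← pow_mul, pow_succ]
    omega
  have c1 : (2 : ℝ) ^ 2 ^ j ≤ (X : ℝ) ^ δ := by
    calc (2 : ℝ) ^ 2 ^ j ≤ N := by exact_mod_cast a2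
      _ ≤ (X : ℝ) ^ δ := Nat.floor_le (by positivity)
  have c2 : (X : ℝ) ^ (δ / 2) ≤ (2 : ℝ) ^ 2 ^ j := by
    have d1 : (X : ℝ) ^ δ ≤ ((2 : ℝ) ^ 2 ^ j) ^ 2 := by
      calc (X : ℝ) ^ δ ≤ (N : ℝ) + 1 := (Nat.lt_floor_add_one _).le
        _ ≤ ((2 : ℝ) ^ 2 ^ j) ^ 2 := by exact_mod_cast a4
    have d2 : (X : ℝ) ^ δ = ((X : ℝ) ^ (δ / 2)) ^ 2 := by
      rw [← Real.rpow_natCast, ← Real.rpow_mul (by positivity)]
      congr 1
      push_cast
      ring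
    rw [d2] at d1
    exact le_of_sq_le_sq d1 (by positivity)
  refine ⟨c1, c2, ?_⟩
  have d1 : (HH X : ℝ) ≤ Real.log (Real.log X) / 4 := by
    unfold HH
    exact Nat.floor_le (by have := Real.log_nonneg h3; positivity)
  have d2 : Real.log (Real.log X) ≤ Real.log X - 1 := Real.log_le_sub_one_of_pos (by linarith)
  have d3 : (HH X : ℝ) < ((2 ^ 2 ^ j : ℕ) : ℝ) := by
    push_cast
    linarith
  exact_mod_cast d3

theorem wtx : Wtx := ⟨wtx1, fun δ hδ _ => wtx2 δ hδ⟩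

end Pool.Agent.H325R2
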